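import Pool.Agent.U365.EP.B

/-!
# The exponent pair bound for almost all translates of arbitrary admissible functions, with arbitrary phases

The starting results treat translates of functions which are close to a power function, with `F ≥ N ^ A`, `A` depending on
`ε`. Here the functions `f_j` are arbitrary functions of the class of the problem (with parameters `N_j`, `F_j ≥ N_j ^ 2`), and
the terms of the sum may be multiplied by arbitrary complex numbers `e(r_j(n))` of modulus one; the scales `N_j` are sparse,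
for example `N_j = 2 ^ j`. We prove that for almost all translations `u`, for every `ε > 0` and all large `j` the bound
`N_j ^ (1/2) F_j ^ ε` holds for all intervals, and that the set of the exceptional translations for a fixed `ε` has Hausdorff
dimension at most `1 - 2 ε`.

Proof. The library theorem `Pool.Agent.Y933.KI.general` (mean square over the translations, for one function) bounds the measure
of the exceptional set of one function; a translation by `1 / F` changes the sums by a bounded quantity only (the interval of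
the smaller translations is used, so that the sums stay inside `[N, 2 N]`).
-/

set_option autoImplicit false

namespace Pool.Agent.Results.MP_493793_nt.ArbitraryAdmissibleTranslates

open Filter MeasureTheory

/-- the sum of `e(f(n + u) + r(n))` over `N1 ≤ n ≤ N2` -/
noncomputable def S (f : ℝ → ℝ) (r : ℕ → ℝ) (u : ℝ) (N1 N2 : ℕ) : ℂ :=
  ∑ n ∈ Finset.Icc N1 N2, Complex.exp (2 * (Real.pi : ℂ) * Complex.I * ((f ((n : ℝ) + u) + r n : ℝ) : ℂ))

/-- `f` is smooth on `[N, 2N]`, with `c_i F / N^i ≤ |f^(i)|` for all `i ≥ 0`, and `|f'| ≤ C F / N` there -/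
structure Admissible (c : ℕ → ℝ) (C N F : ℝ) (f : ℝ → ℝ) : Prop where
  smooth : ContDiffOn ℝ (⊤ : ℕ∞) f (Set.Icc N (2 * N))
  lower : ∀ i : ℕ, ∀ x ∈ Set.Icc N (2 * N), c i * F / N ^ i ≤ |iteratedDerivWithin i f (Set.Icc N (2 * N)) x|
  upper : ∀ x ∈ Set.Icc N (2 * N), |iteratedDerivWithin 1 f (Set.Icc N (2 * N)) x| ≤ C * F / N

/-- the bound of the pair `(0, 0)`, up to the factor `F^ε`, for the translate by `u`, over all intervals -/
def Good (ε N F : ℝ) (f : ℝ → ℝ) (r : ℕ → ℝ) (u : ℝ) : Prop :=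
  ∀ N1 N2 : ℕ, N ≤ N1 → (N2 : ℝ) + u ≤ 2 * N → ‖S f r u N1 N2‖ ≤ N ^ (1 / 2 : ℝ) * F ^ ε

/-- the translations `u ≥ 0` for which the bound fails for infinitely many `j` -/
def Exceptional (ε : ℝ) (N F : ℕ → ℝ) (f : ℕ → ℝ → ℝ) (r : ℕ → ℕ → ℝ) : Set ℝ :=
  {u : ℝ | 0 ≤ u ∧ ¬ ∀ᶠ j in atTop, Good ε (N j) (F j) (f j) (r j) u}

/-- **Almost all translates of arbitrary admissible functions.** Let `c_i > 0`, `C ≥ 0`, let `f_j` be admissible with the
parameters `N_j ≥ 2` and `F_j ≥ N_j ^ 2` and let `r_j(n)` be arbitrary real numbers. (1) If `0 < ε ≤ 1/2`, `δ > 0` and the sum of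
the `F_j ^ (-δ)` converges, the set of the exceptional translations has dimension at most `1 - 2 ε + δ`. (2) If these sums
converge for every `δ > 0` (for example `N_j = 2 ^ j`), the dimension is at most `1 - 2 ε`, for every `0 < ε ≤ 1/2`, and for almost
all `u ≥ 0` and EVERY `ε > 0` the bound holds for all large `j`. -/
theorem result (c : ℕ → ℝ) (hc : ∀ i, 0 < c i) (C : ℝ) (hC : 0 ≤ C) :
    ∀ (N F : ℕ → ℝ) (f : ℕ → ℝ → ℝ) (r : ℕ → ℕ → ℝ),
      (∀ j, 2 ≤ N j ∧ N j ^ 2 ≤ F j ∧ Admissible c C (N j) (F j) (f j)) →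
      (∀ ε δ : ℝ, 0 < ε → ε ≤ 1 / 2 → 0 < δ → (Summable fun j => F j ^ (-δ)) →
        dimH (Exceptional ε N F f r) ≤ ENNReal.ofReal (1 - 2 * ε + δ)) ∧
      ((∀ δ : ℝ, 0 < δ → Summable fun j => F j ^ (-δ)) →
        (∀ ε : ℝ, 0 < ε → ε ≤ 1 / 2 → dimH (Exceptional ε N F f r) ≤ ENNReal.ofReal (1 - 2 * ε)) ∧
        ∀ᵐ u : ℝ, 0 ≤ u → ∀ ε : ℝ, 0 < ε → ∀ᶠ j in atTop, Good ε (N j) (F j) (f j) (r j) u) := by
  intro N F f r h
  have hN : ∀ j, 2 ≤ N j := fun j => (h j).1
  have hF : ∀ j, N j ^ 2 ≤ F j := fun j => (h j).2.1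
  have hf : ∀ j, Pool.Agent.U365.EP.Adm c C (N j) (F j) (f j) := fun j =>
    ⟨(h j).2.2.smooth, (h j).2.2.lower, (h j).2.2.upper⟩
  exact ⟨fun ε δ hε hε2 hδ hs => Pool.Agent.U365.EP.dim_le c hc C ε δ hC hε hε2 hδ N F f r hN hF hf hs,
    fun hs => ⟨fun ε hε hε2 => Pool.Agent.U365.EP.dim_le' c hc C ε hC hε hε2 N F f r hN hF hf hs,
      Pool.Agent.U365.EP.almost_all c hc C hC N F f r hN hF hf hs⟩⟩

end Pool.Agent.Results.MP_493793_nt.ArbitraryAdmissibleTranslates
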