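import Pool.Agent.U922.XP.D

set_option autoImplicit false

/-!
# MP_493793_nt: the bound of the exponent pair conjecture after adding almost any polynomial

Let `0 < ε ≤ 1/2`, let `k ≥ 3/ε^3` be an integer and `r = ⌊1/ε^2 + 2/ε⌋ + 1`. For almost every real polynomial `P` of degree
at most `k` (Lebesgue measure on the coefficients) the bound `|∑_{N ≤ n ≤ N'} e(f(n) + P(n))| ≤ K N^(1/2) F^ε` of the exponent
pair conjecture holds for ALL functions `f` of the class of the question and all `2 ≤ N ≤ N' ≤ 2N`, `F ≥ N` at once, with `K`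
depending on `P`, `ε` and the constants only. Only one derivative of `f` has to be bounded: `|f^(r)(x)| ≤ C F/N^r` on `[N, 2N]`;
in particular the bound is uniform in all polynomials of degree `< r` which may be added to `f`.

Proof: the mean value over the coefficients of `P` of the power sums with fixed lower-order power sums is bounded by the
Vinogradov mean value, which gives the supremum over all polynomials of degree `< r` on every block `(a, a + M]`, `M ≤ a`, for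
almost every `P` at once (convergence of a series of means); then `[N, N']` is cut into blocks of length `N^(1 - ε/2)` on which
`f` is replaced by its Taylor polynomial; for `F > N^(1/(2ε))` the bound is trivial.
-/

namespace Pool.Agent.Results.MP_493793_nt.GenericPolynomialPhase

open Finset MeasureTheory

/-- the polynomial `θ_1 x + ... + θ_k x^k` -/
noncomputable def poly (k : ℕ) (θ : Fin k → ℝ) (x : ℝ) : ℝ := ∑ j : Fin k, θ j * x ^ ((j : ℕ) + 1)

/-- the sum `∑_{N ≤ n ≤ N'} e(g(n))` -/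
noncomputable def expSum (g : ℝ → ℝ) (N N' : ℝ) : ℂ :=
  ∑ n ∈ Finset.Icc ⌈N⌉₊ ⌊N'⌋₊, Complex.exp (2 * (Real.pi : ℂ) * Complex.I * ((g (n : ℝ) : ℝ) : ℂ))

/-- the bound `K N^(1/2) F^ε` for `f + P` and all `f` with `|f^(r)(x)| ≤ C F/N^r` on `[N, 2N]` -/
def OneDerivative (ε : ℝ) (r : ℕ) (P : ℝ → ℝ) : Prop :=
  ∀ C : ℝ, 0 < C → ∃ K : ℝ, ∀ N N' F : ℝ, ∀ f : ℝ → ℝ,
    2 ≤ N → N ≤ N' → N' ≤ 2 * N → N ≤ F →
    ContDiffOn ℝ (r : WithTop ℕ∞) f (Set.Icc N (2 * N)) →
    (∀ x ∈ Set.Icc N (2 * N), |iteratedDerivWithin r f (Set.Icc N (2 * N)) x| ≤ C * F / N ^ r) →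
    ‖expSum (fun x => f x + P x) N N'‖ ≤ K * N ^ (1 / 2 : ℝ) * F ^ ε

/-- the inequality of the question (for this `ε`) with `f + P` in place of `f`, for the whole class of the question -/
def WholeClass (ε : ℝ) (P : ℝ → ℝ) : Prop :=
  ∀ c C : ℕ → ℝ, (∀ j, 0 < c j) → (∀ j, 0 < C j) →
    ∃ K : ℝ, ∀ N N' F : ℝ, ∀ f : ℝ → ℝ,
      2 ≤ N → N ≤ N' → N' ≤ 2 * N → N ≤ F →
      ContDiffOn ℝ (⊤ : ℕ∞) f (Set.Icc N (2 * N)) →
      (∀ j : ℕ, ∀ x ∈ Set.Icc N (2 * N),
          c j * F / N ^ j ≤ |iteratedDerivWithin j f (Set.Icc N (2 * N)) x| ∧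
          |iteratedDerivWithin j f (Set.Icc N (2 * N)) x| ≤ C j * F / N ^ j) →
      ‖expSum (fun x => f x + P x) N N'‖ ≤ K * N ^ (1 / 2 : ℝ) * F ^ ε

/-- For almost every polynomial `P` of degree at most `k`, `k ≥ 3/ε^3`, the bound `K N^(1/2) F^ε` holds for `f + P`, for all
`f` with one bounded derivative and in particular for the whole class of the question. -/
theorem result (ε : ℝ) (hε : 0 < ε) (hε2 : ε ≤ 1 / 2) (k : ℕ) (hk : 3 / ε ^ 3 ≤ k) :
    ∀ᵐ θ : Fin k → ℝ,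
      OneDerivative ε (⌊1 / ε ^ 2 + 2 / ε⌋₊ + 1) (poly k θ) ∧ WholeClass ε (poly k θ) := by
  obtain ⟨m, hm, h1, h2⟩ := Pool.Agent.U922.XP.params ε hε hε2 k hk
  have hk0 : (0 : ℝ) < k := lt_of_lt_of_le (by positivity) hk
  have hk1 : 1 ≤ k := by
    have : 0 < k := by exact_mod_cast hk0
    omega
  have hmain : ∀ᵐ θ : Fin k → ℝ, θ ∈ {θ : Fin k → ℝ | OneDerivative ε (m + 1) (poly k θ)} := by
    apply Pool.Agent.U922.XP.ae_of_box
    · intro θ z hθ C hC
      obtain ⟨K, hK⟩ := hθ C hC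
      refine ⟨K, fun N N' F f a1 a2 a3 a4 a5 a6 => ?_⟩
      have h3 := hK N N' F f a1 a2 a3 a4 a5 a6
      refine le_trans (le_of_eq ?_) h3
      congr 1
      exact Finset.sum_congr rfl fun n _ => Pool.Agent.U922.XP.e_lo_per k θ z (f n) n
    · filter_upwards [Pool.Agent.U922.XP.ae_good k m hk1 (Pool.Agent.helper132_dc.sk_pos k hk1) _ h2] with θ hθ
      intro C hC
      exact Pool.Agent.U922.XP.det hε h1 hθ C hC
  filter_upwards [hmain] with θ hθ
  have hθ' : OneDerivative ε (m + 1) (poly k θ) := hθ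
  rw [hm] at hθ'
  refine ⟨hθ', ?_⟩
  intro c C _ hC
  obtain ⟨K, hK⟩ := hθ' (C (⌊1 / ε ^ 2 + 2 / ε⌋₊ + 1)) (hC _)
  refine ⟨K, fun N N' F f a1 a2 a3 a4 a5 a6 => ?_⟩
  exact hK N N' F f a1 a2 a3 a4 (a5.of_le (by exact_mod_cast le_top)) fun x hx => (a6 _ x hx).2

end Pool.Agent.Results.MP_493793_nt.GenericPolynomialPhase
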