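import Pool.Agent.U803.EP.Main
import Pool.Agent.U160.VP.PkgI

/-!
# The exponent pair conjecture for random perturbations of the integers

Let `X_0, X_1, ...` be independent random variables with a density `ρ` on `[0,1]` which has an absolutely summable
Fourier series (the uniform density; and for every `δ > 0` there are such densities with support in `[0,δ]`). We prove:
almost surely the exponent pair conjecture holds for the points `x_n = n + X_n` in place of the integers: for every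
`ε > 0` and all sequences `(c_j, C_j)` there is a constant `K` such that

`|∑_{N ≤ x_n ≤ N'} e(f(x_n))| ≤ K N^(1/2) F^ε`

for all `2 ≤ N ≤ N' ≤ 2N`, ALL `F ≥ N` and ALL functions `f` on `[N,2N]` which are admissible with the parameter `F`. So
the exceptional set of perturbations does not depend on `f`: the perturbed points are fixed first, and then the bound
holds for the whole class of functions of the problem (for `X_n = 0` the statement is the problem, last part of the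
theorem).

Proof. For `F > N^A`, `A = 1/(2ε)`, the bound is trivial. For a fixed polynomial of bounded degree the sum over an
interval differs from its expectation by at most `N^(1/2 + δ)` up to an event of probability `N^(-D)`, with any `D`
(moments of sums of independent variables); there are polynomially many polynomials up to rounding of the coefficients,
so that almost surely this is true for all of them and all large `N` at once. The interval `[N,N']` is divided into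
`N^δ` intervals of length `N^(1 - δ)`, where `f` is close to a Taylor polynomial of large degree. The expectation is
`∑_h c_h ∫ e(f(x) + h x) dx`, `c_h` the Fourier coefficients of `ρ`; as `|f''| ≥ c_2 F / N²`, every integral is
`O(N F^(-1/2))` by the second derivative test, uniformly in `h`.
-/

set_option autoImplicit false

namespace Pool.Agent.Results.MP_493793_nt.IndependentPerturbations

open MeasureTheory ProbabilityTheory
open Pool.Agent.U160.VP (Dens law)

/-- **The exponent pair `(0,0)` for the points `n + θ n`** (`θ n ≥ 0`): for every `ε > 0` and all sequences `c_j`, `C_j` of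
positive numbers the sum of `e(f(n + θ n))` over the `n` with `N ≤ n + θ n ≤ N'` is at most `K N^(1/2) F^ε`, for all
`2 ≤ N ≤ N' ≤ 2N`, `F ≥ N` and all smooth `f` with `c_j F N^(-j) ≤ |f^(j)| ≤ C_j F N^(-j)` on `[N,2N]`, `j ≥ 0`. -/
def PairZero (θ : ℕ → ℝ) : Prop :=
  ∀ ε : ℝ, 0 < ε → ∀ c C : ℕ → ℝ, (∀ j, 0 < c j) → (∀ j, 0 < C j) →
    ∃ K : ℝ, ∀ N N' F : ℝ, ∀ f : ℝ → ℝ,
      2 ≤ N → N ≤ N' → N' ≤ 2 * N → N ≤ F →
      ContDiffOn ℝ (⊤ : ℕ∞) f (Set.Icc N (2 * N)) →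
      (∀ j : ℕ, ∀ x ∈ Set.Icc N (2 * N),
          c j * F / N ^ j ≤ |iteratedDerivWithin j f (Set.Icc N (2 * N)) x| ∧
          |iteratedDerivWithin j f (Set.Icc N (2 * N)) x| ≤ C j * F / N ^ j) →
      ‖∑ n ∈ (Finset.range (⌊N'⌋₊ + 1)).filter (fun n : ℕ => N ≤ (n : ℝ) + θ n ∧ (n : ℝ) + θ n ≤ N'),
          Complex.exp (2 * (Real.pi : ℂ) * Complex.I * ((f ((n : ℝ) + θ n) : ℝ) : ℂ))‖
        ≤ K * N ^ (1 / 2 : ℝ) * F ^ ε

/-- the statement of the problem -/
def TheProblem : Prop :=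
    ∀ ε : ℝ, 0 < ε → ∀ c C : ℕ → ℝ, (∀ j, 0 < c j) → (∀ j, 0 < C j) →
      ∃ K : ℝ, ∀ N N' F : ℝ, ∀ f : ℝ → ℝ,
        2 ≤ N → N ≤ N' → N' ≤ 2 * N → N ≤ F →
        ContDiffOn ℝ (⊤ : ℕ∞) f (Set.Icc N (2 * N)) →
        (∀ j : ℕ, ∀ x ∈ Set.Icc N (2 * N),
            c j * F / N ^ j ≤ |iteratedDerivWithin j f (Set.Icc N (2 * N)) x| ∧
            |iteratedDerivWithin j f (Set.Icc N (2 * N)) x| ≤ C j * F / N ^ j) →
        ‖∑ n ∈ Finset.Icc ⌈N⌉₊ ⌊N'⌋₊,
            Complex.exp (2 * (Real.pi : ℂ) * Complex.I * ((f (n : ℝ) : ℝ) : ℂ))‖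
          ≤ K * N ^ (1 / 2 : ℝ) * F ^ ε

theorem law_prob {ρ : ℝ → ℝ} {c : ℤ → ℂ} (hd : Dens ρ c) : IsProbabilityMeasure (law ρ) := by
  constructor
  unfold law
  rw [withDensity_apply _ MeasurableSet.univ, Measure.restrict_univ,
    ← ofReal_integral_eq_lintegral_ofReal (Pool.Agent.U803.EP.integrable_rho hd)
      (Filter.Eventually.of_forall hd.nonneg), hd.mass, ENNReal.ofReal_one]

theorem ae_mem {ρ : ℝ → ℝ} {Ω : Type} [MeasurableSpace Ω] {P : Measure Ω} {X : ℕ → Ω → ℝ}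
    (hX : ∀ n, Measurable (X n)) (hl : ∀ n, P.map (X n) = law ρ) :
    ∀ᵐ ω ∂P, ∀ n, X n ω ∈ Set.Icc (0 : ℝ) 1 := by
  refine ae_all_iff.2 fun n => ?_
  have h : (law ρ) (Set.Icc (0 : ℝ) 1)ᶜ = 0 := by
    refine withDensity_absolutelyContinuous _ _ ?_
    rw [Measure.restrict_apply measurableSet_Icc.compl]
    simp
  rw [← hl n, Measure.map_apply (hX n) measurableSet_Icc.compl] at h
  exact h

/-- all the points in `[N, N']` -/
theorem pairZero_of {θ : ℕ → ℝ} (hθ : ∀ n, θ n ∈ Set.Icc (0 : ℝ) 1)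
    (h : ∀ ε : ℝ, 0 < ε → ∀ cc CC : ℕ → ℝ, (∀ j, 0 < cc j) → (∀ j, 0 < CC j) →
      ∃ K : ℝ, ∀ N N' F : ℝ, ∀ f : ℝ → ℝ, 2 ≤ N → N ≤ N' → N' ≤ 2 * N → N ≤ F →
        ContDiffOn ℝ (⊤ : ℕ∞) f (Set.Icc N (2 * N)) →
        (∀ j : ℕ, ∀ x ∈ Set.Icc N (2 * N),
            cc j * F / N ^ j ≤ |iteratedDerivWithin j f (Set.Icc N (2 * N)) x| ∧
            |iteratedDerivWithin j f (Set.Icc N (2 * N)) x| ≤ CC j * F / N ^ j) →
        ‖∑ n ∈ Finset.Ico ⌈N⌉₊ ⌊N'⌋₊, Pool.Agent.U160.VP.ee (f ((n : ℝ) + θ n))‖ ≤ K * N ^ (1 / 2 : ℝ) * F ^ ε) :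
    PairZero θ := by
  intro ε hε c C hc hC
  obtain ⟨K, hK⟩ := h ε hε c C hc hC
  refine ⟨K + 2, fun N N' F f hN hNN' hN'2 hNF hf hbd => ?_⟩
  have h1 := hK N N' F f hN hNN' hN'2 hNF hf hbd
  have hN1 : 1 ≤ N := by linarith
  have hY : 1 ≤ N ^ (1 / 2 : ℝ) * F ^ ε := by
    have e1 : 1 ≤ N ^ (1 / 2 : ℝ) := Real.one_le_rpow hN1 (by norm_num)
    have e2 : 1 ≤ F ^ ε := Real.one_le_rpow (by linarith) hε.le
    nlinarith
  change ‖∑ n ∈ (Finset.range (⌊N'⌋₊ + 1)).filter (fun n : ℕ => N ≤ (n : ℝ) + θ n ∧ (n : ℝ) + θ n ≤ N'),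
    Pool.Agent.U160.VP.ee (f ((n : ℝ) + θ n))‖ ≤ _
  have hsub : Finset.Ico ⌈N⌉₊ ⌊N'⌋₊ ⊆
      (Finset.range (⌊N'⌋₊ + 1)).filter (fun n : ℕ => N ≤ (n : ℝ) + θ n ∧ (n : ℝ) + θ n ≤ N') := by
    intro n hn
    rw [Finset.mem_Ico] at hn
    rw [Finset.mem_filter, Finset.mem_range]
    have e1 : N ≤ n := Nat.ceil_le.1 hn.1
    have e2 : ((n + 1 : ℕ) : ℝ) ≤ N' := (Nat.le_floor_iff (by linarith)).1 hn.2
    push_cast at e2
    have e3 := hθ n
    exact ⟨by omega, by linarith [e3.1], by linarith [e3.2]⟩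
  rw [← Finset.sum_sdiff hsub]
  have h2 : ‖∑ n ∈ (Finset.range (⌊N'⌋₊ + 1)).filter (fun n : ℕ => N ≤ (n : ℝ) + θ n ∧ (n : ℝ) + θ n ≤ N') \
      Finset.Ico ⌈N⌉₊ ⌊N'⌋₊, Pool.Agent.U160.VP.ee (f ((n : ℝ) + θ n))‖ ≤ 2 := by
    refine (norm_sum_le _ _).trans ?_
    simp only [Pool.Agent.U160.VP.pkgD_ee_norm, Finset.sum_const, nsmul_eq_mul, mul_one]
    have h3 : (Finset.range (⌊N'⌋₊ + 1)).filter (fun n : ℕ => N ≤ (n : ℝ) + θ n ∧ (n : ℝ) + θ n ≤ N') \
      Finset.Ico ⌈N⌉₊ ⌊N'⌋₊ ⊆ {⌈N⌉₊ - 1, ⌊N'⌋₊} := by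
      intro n hn
      rw [Finset.mem_sdiff, Finset.mem_filter, Finset.mem_range, Finset.mem_Ico] at hn
      obtain ⟨⟨h4, h5, h6⟩, h7⟩ := hn
      rw [Finset.mem_insert, Finset.mem_singleton]
      have e3 := hθ n
      have h8 : ⌈N⌉₊ ≤ n + 1 := by
        apply Nat.ceil_le.2
        push_cast
        linarith [e3.2]
      by_contra hcon
      push Not at hcon
      apply h7
      obtain ⟨c1, c2⟩ := hcon
      constructor <;> omega
    have h9 := (Finset.card_le_card h3).trans Finset.card_le_two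
    exact_mod_cast h9
  refine (norm_add_le _ _).trans ((add_le_add h2 h1).trans ?_)
  calc 2 + K * N ^ (1 / 2 : ℝ) * F ^ ε ≤ 2 * (N ^ (1 / 2 : ℝ) * F ^ ε) + K * N ^ (1 / 2 : ℝ) * F ^ ε := by linarith
    _ = _ := by ring

/-- **The exponent pair conjecture for random perturbations of the integers.** (1) Let the `X n` be independent with a
density `ρ` on `[0,1]` which has an absolutely summable Fourier series. Almost surely the exponent pair conjecture holds for
the points `n + X n`: the bound `|∑ e(f(n + X n))| ≤ K N^(1/2) F^ε` (the sum over the `n` with `N ≤ n + X n ≤ N'`) is true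
for ALL admissible `f` and all `F ≥ N` at once. (2) For every `δ > 0` there is such a density which vanishes outside of
`[0,δ]`, and the uniform density on `[0,1]` is another example. (3) Such sequences exist for all such densities. (4) For
`X n = 0` the statement is the problem. -/
theorem result :
    (∀ (ρ : ℝ → ℝ) (c : ℤ → ℂ), Dens ρ c → ∀ (Ω : Type) [MeasurableSpace Ω] (P : Measure Ω) [IsProbabilityMeasure P]
      (X : ℕ → Ω → ℝ), (∀ n, Measurable (X n)) → iIndepFun X P → (∀ n, P.map (X n) = law ρ) →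
      ∀ᵐ ω ∂P, PairZero (fun n => X n ω)) ∧
    ((∀ δ : ℝ, 0 < δ → ∃ (ρ : ℝ → ℝ) (c : ℤ → ℂ), Dens ρ c ∧ Continuous ρ ∧ ∀ u : ℝ, δ ≤ u → ρ u = 0) ∧
      ∃ c : ℤ → ℂ, Dens (fun _ => 1) c) ∧
    (∀ (ρ : ℝ → ℝ) (c : ℤ → ℂ), Dens ρ c → ∃ (Ω : Type) (_ : MeasurableSpace Ω) (P : Measure Ω) (X : ℕ → Ω → ℝ),
      IsProbabilityMeasure P ∧ (∀ n, Measurable (X n)) ∧ iIndepFun X P ∧ ∀ n, P.map (X n) = law ρ) ∧
    (PairZero (fun _ => 0) ↔ TheProblem) := by
  refine ⟨?_, ⟨Pool.Agent.U160.VP.t_I, ?_⟩, ?_, ?_⟩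
  · intro ρ c hd Ω _ P _ X hX hi hl
    have h1 : ∀ᵐ ω ∂P, ∀ D B B' r : ℕ, ∀ᶠ N : ℕ in Filter.atTop,
        Pool.Agent.U803.EP.Gd ρ (fun n => X n ω) D B B' (1 / ((r : ℝ) + 1)) N := by
      simp only [ae_all_iff]
      intro D B B' r
      exact Pool.Agent.U803.EP.ae_Gd hd hX hi hl D B B' (by positivity)
    filter_upwards [h1, ae_mem hX hl] with ω hω1 hω2
    exact pairZero_of hω2 (Pool.Agent.U803.EP.det hd hω2 hω1)
  · refine ⟨fun h => if h = 0 then 1 else 0, measurable_const, fun _ => zero_le_one, by simp, ?_, ?_⟩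
    · refine summable_of_ne_finset_zero (s := {0}) fun h hh => ?_
      rw [Finset.mem_singleton] at hh
      rw [if_neg hh, norm_zero]
    · intro u _
      rw [tsum_eq_single 0]
      · simp [Pool.Agent.U160.VP.ee]
      · intro h hh
        rw [if_neg hh, zero_mul]
  · intro ρ c hd
    have := law_prob hd
    obtain ⟨Ω, m, P, X, h1, h2, h3, h4⟩ := exists_iid ℕ (law ρ)
    exact ⟨Ω, m, P, X, h4, h1, h3, fun n => (h2 n).map_eq⟩
  · have key : ∀ N N' : ℝ, 2 ≤ N → N ≤ N' →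
        (Finset.range (⌊N'⌋₊ + 1)).filter (fun n : ℕ => N ≤ (n : ℝ) + 0 ∧ (n : ℝ) + 0 ≤ N') =
        Finset.Icc ⌈N⌉₊ ⌊N'⌋₊ := by
      intro N N' hN hNN'
      ext n
      rw [Finset.mem_filter, Finset.mem_range, Finset.mem_Icc, add_zero, Nat.ceil_le, Nat.le_floor_iff (by linarith)]
      constructor
      · rintro ⟨_, h2, h3⟩
        exact ⟨h2, h3⟩
      · rintro ⟨h2, h3⟩
        refine ⟨?_, h2, h3⟩
        have := (Nat.le_floor_iff (by linarith : (0 : ℝ) ≤ N')).2 h3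
        omega
    constructor
    · intro h ε hε c C hc hC
      obtain ⟨K, hK⟩ := h ε hε c C hc hC
      refine ⟨K, fun N N' F f hN hNN' hN'2 hNF hf hbd => ?_⟩
      have h1 := hK N N' F f hN hNN' hN'2 hNF hf hbd
      rw [key N N' hN hNN'] at h1
      simpa only [add_zero] using h1
    · intro h ε hε c C hc hC
      obtain ⟨K, hK⟩ := h ε hε c C hc hC
      refine ⟨K, fun N N' F f hN hNN' hN'2 hNF hf hbd => ?_⟩
      have h1 := hK N N' F f hN hNN' hN'2 hNF hf hbd
      rw [key N N' hN hNN']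
      simpa only [add_zero] using h1

end Pool.Agent.Results.MP_493793_nt.IndependentPerturbations
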