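import Pool.Agent.U501.EP.COR
import Pool.Agent.U978.EP.FL
import Pool.Agent.U34.EP.BUMP
import Pool.Agent.U981.EP.MEAN
import Pool.Agent.U160.VP.PkgF3
import Pool.Agent.U337.EP.VS

/-!
# The exponent pair conjecture for almost every small perturbation of the integers

Let `ρ` be a `C²` probability density on `[0, 1]`, let `Y 0, Y 1, …` be independent random variables with density `ρ`,
and let `0 < d l ≤ 1`.  The integer `n` is moved to `n + d(⌊log₂ n⌋) Y n`.  For almost every `ω` the following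
holds for ALL `ε > 0`, all sequences of constants and ALL admissible functions `f` at all scales simultaneously:

(1) `|∑_{N ≤ n ≤ N'} e(f(n + d(⌊log₂ n⌋) Y n))| ≤ K F^ε (N^(1/2) + min(F^(1/2), N / (δ F^(1/2))))`, `δ` the
    smaller one of the two values of `d` which occur;

(2) if `d l ≥ c₀ 2^(-κ l)`, so that the perturbations may be as small as a constant times `n^(-κ)`, then the sum is
    `≤ K N^(1/2 + κ/2) F^ε` for all admissible `f`, and `≤ K N^(1/2) F^ε` if `F ≥ N^(1 + 2κ)`;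

(3) if `d l` tends to zero slower than every `2^(-κ l)` (for instance `d l = 1 / (l + 1)`, when the `n`-th
    integer is moved by at most `1 / log₂ n`), then the inequality of Q1 (the frozen statement S16807 with `n` replaced
    by `n + d(⌊log₂ n⌋) Y n`) holds: `(0, 0)` is an exponent pair for the perturbed integers.

Proof.  Fluctuations: `f` is replaced by its Taylor polynomials of a high degree `k` on intervals of length
`N^(1-η)`; the coefficients may be rounded, so that at each scale only `N^O(1)` polynomials occur, and high moments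
of sums of independent bounded variables bound all the sums minus their means by `N^(1/2+η)` at once.  Means: the
scaled densities have Fourier coefficients `c_h` with `∑ |c_h| ≤ C / δ`, and the mean of the sum is `∑ c_h I_h` with
`I_h` the integral of `e(f(x) + h x)`, which is `≤ C N F^(-1/2)` by the second derivative test; on the other hand
the mean is an average of ordinary exponential sums with `f(n + t)`, which are `≤ C F^(1/2) log N` by van der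
Corput's second derivative test.

The parts were proved by helper501 (FLUC, MAIN), helper978 (FL, moments), helper34 (BUMP), helper981 (MEAN, with
the oscillatory integrals of U555), helper337 (VS, with the library Q83.WG and H469R2.NK).
-/

set_option autoImplicit false

open MeasureTheory ProbabilityTheory

namespace Pool.Agent.Results.MP_493793_nt.SmallPerturbations

/-- `ρ` is a `C²` probability density with support in `[0, 1]` -/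
def IsDensity (ρ : ℝ → ℝ) : Prop :=
  ContDiff ℝ 2 ρ ∧ (∀ u, 0 ≤ ρ u) ∧ (∀ u, u ≤ 0 → ρ u = 0) ∧ (∀ u, 1 ≤ u → ρ u = 0) ∧ ∫ u, ρ u = 1

/-- `f` is admissible at the scale `N` with the parameter `F` and the constants `c`, `C` -/
def Admissible (c C : ℕ → ℝ) (N F : ℝ) (f : ℝ → ℝ) : Prop :=
  ContDiffOn ℝ (⊤ : ℕ∞) f (Set.Icc N (2 * N)) ∧ ∀ j : ℕ, ∀ x ∈ Set.Icc N (2 * N),
    c j * F / N ^ j ≤ |iteratedDerivWithin j f (Set.Icc N (2 * N)) x| ∧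
    |iteratedDerivWithin j f (Set.Icc N (2 * N)) x| ≤ C j * F / N ^ j

/-- `‖∑_{N ≤ n ≤ N'} e(f(n + d(⌊log₂ n⌋) y n))‖`, `e(x) = exp(2 π i x)` -/
noncomputable def size (d y : ℕ → ℝ) (N N' : ℝ) (f : ℝ → ℝ) : ℝ :=
  ‖∑ n ∈ Finset.Icc ⌈N⌉₊ ⌊N'⌋₊, Complex.exp (2 * (Real.pi : ℂ) * Complex.I *
    ((f ((n : ℝ) + d (Nat.log 2 n) * y n) : ℝ) : ℂ))‖

/-- **The exponent pair conjecture for almost every small perturbation of the integers.** -/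
theorem result (ρ : ℝ → ℝ) (hρ : IsDensity ρ) (d : ℕ → ℝ) (hd : ∀ l, 0 < d l ∧ d l ≤ 1)
    (Ω : Type) [MeasurableSpace Ω] (P : Measure Ω) [IsProbabilityMeasure P] (Y : ℕ → Ω → ℝ)
    (hYm : ∀ n, Measurable (Y n)) (hYi : iIndepFun Y P)
    (hlaw : ∀ n, P.map (Y n) = volume.withDensity fun u => ENNReal.ofReal (ρ u)) :
    -- (1) the general bound
    (∀ᵐ ω ∂P, ∀ ε : ℝ, 0 < ε → ∀ c C : ℕ → ℝ, (∀ j, 0 < c j) → (∀ j, 0 < C j) → ∃ K : ℝ,
      ∀ (N N' F : ℝ) (f : ℝ → ℝ), 2 ≤ N → N ≤ N' → N' ≤ 2 * N → N ≤ F → Admissible c C N F f →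
        size d (fun n => Y n ω) N N' f ≤ K * F ^ ε * (N ^ (1 / 2 : ℝ) + min (F ^ (1 / 2 : ℝ))
          (N / (min (d (Nat.log 2 ⌈N⌉₊)) (d (Nat.log 2 ⌈N⌉₊ + 1)) * F ^ (1 / 2 : ℝ))))) ∧
    -- (2) perturbations of polynomially small size
    (∀ κ c₀ : ℝ, 0 ≤ κ → 0 < c₀ → (∀ l : ℕ, c₀ * (2 : ℝ) ^ (-(κ * l)) ≤ d l) →
      ∀ᵐ ω ∂P, ∀ ε : ℝ, 0 < ε → ∀ c C : ℕ → ℝ, (∀ j, 0 < c j) → (∀ j, 0 < C j) → ∃ K : ℝ,
        ∀ (N N' F : ℝ) (f : ℝ → ℝ), 2 ≤ N → N ≤ N' → N' ≤ 2 * N → N ≤ F → Admissible c C N F f →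
          size d (fun n => Y n ω) N N' f ≤ K * N ^ ((1 + κ) / 2) * F ^ ε ∧
          (N ^ (1 + 2 * κ) ≤ F →
            size d (fun n => Y n ω) N N' f ≤ K * N ^ (1 / 2 : ℝ) * F ^ ε)) ∧
    -- (3) the conjectured inequality, for perturbations which may tend to zero
    ((∀ κ : ℝ, 0 < κ → ∃ c₀ : ℝ, 0 < c₀ ∧ ∀ l : ℕ, c₀ * (2 : ℝ) ^ (-(κ * l)) ≤ d l) →
      ∀ᵐ ω ∂P, ∀ ε : ℝ, 0 < ε → ∀ c C : ℕ → ℝ, (∀ j, 0 < c j) → (∀ j, 0 < C j) → ∃ K : ℝ,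
        ∀ (N N' F : ℝ) (f : ℝ → ℝ), 2 ≤ N → N ≤ N' → N' ≤ 2 * N → N ≤ F → Admissible c C N F f →
          size d (fun n => Y n ω) N N' f ≤ K * N ^ (1 / 2 : ℝ) * F ^ ε) := by
  obtain ⟨hρ1, hρ2, hρ3, hρ4, hρ5⟩ := hρ
  have hM : Pool.Agent.U501.EP.S_M := Pool.Agent.U160.VP.t_F3
  have hmain : ∀ᵐ ω ∂P, ∀ ε : ℝ, 0 < ε → ∀ c C : ℕ → ℝ, (∀ j, 0 < c j) → (∀ j, 0 < C j) →
      ∃ K : ℝ, ∀ (N N' F : ℝ) (f : ℝ → ℝ), 2 ≤ N → N ≤ N' → N' ≤ 2 * N → N ≤ F →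
        Admissible c C N F f → size d (fun n => Y n ω) N N' f ≤ K * F ^ ε * (N ^ (1 / 2 : ℝ) +
          min (F ^ (1 / 2 : ℝ))
          (N / (min (d (Nat.log 2 ⌈N⌉₊)) (d (Nat.log 2 ⌈N⌉₊ + 1)) * F ^ (1 / 2 : ℝ)))) :=
    Pool.Agent.U501.EP.t_MAIN2 (Pool.Agent.U501.EP.t_FLUC (Pool.Agent.U978.EP.FL.t_FL hM))
      (Pool.Agent.U981.EP.MEAN.t_MEAN Pool.Agent.U34.EP.BUMP.t_BUMP)
      Pool.Agent.U337.EP.VS.t_VS ρ hρ1 hρ2 hρ3 hρ4 hρ5 d hd Ω P Y hYm hYi hlaw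
  -- the consequences for one κ
  have hcons : ∀ κ c₀ : ℝ, 0 ≤ κ → 0 < c₀ → (∀ l : ℕ, c₀ * (2 : ℝ) ^ (-(κ * l)) ≤ d l) →
      ∀ ε K N F S : ℝ, 0 < ε → 2 ≤ N → N ≤ F → S ≤ K * F ^ ε * (N ^ (1 / 2 : ℝ) +
          min (F ^ (1 / 2 : ℝ))
          (N / (min (d (Nat.log 2 ⌈N⌉₊)) (d (Nat.log 2 ⌈N⌉₊ + 1)) * F ^ (1 / 2 : ℝ)))) →
        S ≤ |K| * (1 + (4 ^ κ / c₀) ^ (1 / 2 : ℝ) + 4 ^ κ / c₀) * N ^ ((1 + κ) / 2) * F ^ ε ∧
        (N ^ (1 + 2 * κ) ≤ F →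
          S ≤ |K| * (1 + (4 ^ κ / c₀) ^ (1 / 2 : ℝ) + 4 ^ κ / c₀) * N ^ (1 / 2 : ℝ) * F ^ ε) := by
    intro κ c₀ hκ hc₀ hdl ε K N F S hε hN hNF hS
    have hN0 : 0 < N := by linarith
    have hN1 : 1 ≤ N := by linarith
    have hF0 : 0 < F := by linarith
    obtain ⟨h1, h2⟩ := Pool.Agent.U501.EP.min_le_of κ c₀ hκ hc₀ N F _ hN hNF
      (Pool.Agent.U501.EP.dm_lower d κ c₀ hκ hc₀ hdl N hN)
    set B : ℝ := min (F ^ (1 / 2 : ℝ))
      (N / (min (d (Nat.log 2 ⌈N⌉₊)) (d (Nat.log 2 ⌈N⌉₊ + 1)) * F ^ (1 / 2 : ℝ))) with hB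
    have hdm0 : 0 < min (d (Nat.log 2 ⌈N⌉₊)) (d (Nat.log 2 ⌈N⌉₊ + 1)) :=
      lt_min (hd _).1 (hd _).1
    have hB0 : 0 ≤ B := by rw [hB]; exact le_min (by positivity) (by positivity)
    have hS' : S ≤ |K| * F ^ ε * (N ^ (1 / 2 : ℝ) + B) := by
      refine hS.trans ?_
      gcongr
      exact le_abs_self K
    have hA : 0 < 4 ^ κ / c₀ := by positivity
    constructor
    · have h3 : N ^ (1 / 2 : ℝ) ≤ N ^ ((1 + κ) / 2) :=
        Real.rpow_le_rpow_of_exponent_le hN1 (by linarith)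
      calc S ≤ |K| * F ^ ε * (N ^ (1 / 2 : ℝ) + B) := hS'
        _ ≤ |K| * F ^ ε * (N ^ ((1 + κ) / 2) + (4 ^ κ / c₀) ^ (1 / 2 : ℝ) * N ^ ((1 + κ) / 2)) := by
            gcongr
        _ = |K| * (1 + (4 ^ κ / c₀) ^ (1 / 2 : ℝ)) * N ^ ((1 + κ) / 2) * F ^ ε := by ring
        _ ≤ |K| * (1 + (4 ^ κ / c₀) ^ (1 / 2 : ℝ) + 4 ^ κ / c₀) * N ^ ((1 + κ) / 2) * F ^ ε := by
            have h9 : |K| * (1 + (4 ^ κ / c₀) ^ (1 / 2 : ℝ)) ≤
                |K| * (1 + (4 ^ κ / c₀) ^ (1 / 2 : ℝ) + 4 ^ κ / c₀) :=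
              mul_le_mul_of_nonneg_left (by linarith) (abs_nonneg K)
            exact mul_le_mul_of_nonneg_right (mul_le_mul_of_nonneg_right h9 (by positivity))
              (by positivity)
    · intro h4
      have h5 : B ≤ 4 ^ κ / c₀ * N ^ (1 / 2 : ℝ) := by
        refine (min_le_right _ _).trans (h1.trans ?_)
        apply mul_le_mul_of_nonneg_left _ hA.le
        have h6 : (N ^ (1 + 2 * κ)) ^ (1 / 2 : ℝ) ≤ F ^ (1 / 2 : ℝ) :=
          Real.rpow_le_rpow (by positivity) h4 (by norm_num)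
        have h7 : (N ^ (1 + 2 * κ)) ^ (1 / 2 : ℝ) = N ^ (1 / 2 + κ) := by
          rw [← Real.rpow_mul hN0.le]
          congr 1
          ring
        rw [h7] at h6
        calc N ^ (1 + κ) / F ^ (1 / 2 : ℝ) ≤ N ^ (1 + κ) / N ^ (1 / 2 + κ) := by gcongr
          _ = N ^ (1 / 2 : ℝ) := by
              rw [← Real.rpow_sub hN0]
              congr 1
              ring
      calc S ≤ |K| * F ^ ε * (N ^ (1 / 2 : ℝ) + B) := hS'
        _ ≤ |K| * F ^ ε * (N ^ (1 / 2 : ℝ) + 4 ^ κ / c₀ * N ^ (1 / 2 : ℝ)) := by gcongr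
        _ = |K| * (1 + 4 ^ κ / c₀) * N ^ (1 / 2 : ℝ) * F ^ ε := by ring
        _ ≤ |K| * (1 + (4 ^ κ / c₀) ^ (1 / 2 : ℝ) + 4 ^ κ / c₀) * N ^ (1 / 2 : ℝ) * F ^ ε := by
            have h8 : 0 ≤ (4 ^ κ / c₀) ^ (1 / 2 : ℝ) := by positivity
            have h9 : |K| * (1 + 4 ^ κ / c₀) ≤
                |K| * (1 + (4 ^ κ / c₀) ^ (1 / 2 : ℝ) + 4 ^ κ / c₀) :=
              mul_le_mul_of_nonneg_left (by linarith) (abs_nonneg K)
            exact mul_le_mul_of_nonneg_right (mul_le_mul_of_nonneg_right h9 (by positivity))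
              (by positivity)
  refine ⟨hmain, ?_, ?_⟩
  · intro κ c₀ hκ hc₀ hdl
    filter_upwards [hmain] with ω hω
    intro ε hε c C hc hC
    obtain ⟨K, hK⟩ := hω ε hε c C hc hC
    refine ⟨|K| * (1 + (4 ^ κ / c₀) ^ (1 / 2 : ℝ) + 4 ^ κ / c₀), ?_⟩
    intro N N' F f hN hNN' hN'2 hNF hf
    exact hcons κ c₀ hκ hc₀ hdl ε K N F _ hε hN hNF (hK N N' F f hN hNN' hN'2 hNF hf)
  · intro hsub
    filter_upwards [hmain] with ω hω
    intro ε hε c C hc hC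
    obtain ⟨K, hK⟩ := hω (ε / 2) (by linarith) c C hc hC
    obtain ⟨c₀, hc₀, hdl⟩ := hsub ε hε
    refine ⟨|K| * (1 + (4 ^ ε / c₀) ^ (1 / 2 : ℝ) + 4 ^ ε / c₀), ?_⟩
    intro N N' F f hN hNN' hN'2 hNF hf
    have hN0 : 0 < N := by linarith
    have hF0 : 0 < F := by linarith
    have h1 := (hcons ε c₀ hε.le hc₀ hdl (ε / 2) K N F _ (by linarith) hN hNF
      (hK N N' F f hN hNN' hN'2 hNF hf)).1
    refine h1.trans ?_
    have h2 : N ^ ((1 + ε) / 2) * F ^ (ε / 2) ≤ N ^ (1 / 2 : ℝ) * F ^ ε := by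
      calc N ^ ((1 + ε) / 2) * F ^ (ε / 2) = N ^ (1 / 2 : ℝ) * (N ^ (ε / 2) * F ^ (ε / 2)) := by
            rw [← mul_assoc, ← Real.rpow_add hN0]
            congr 2
            ring
        _ ≤ N ^ (1 / 2 : ℝ) * (F ^ (ε / 2) * F ^ (ε / 2)) := by gcongr
        _ = N ^ (1 / 2 : ℝ) * F ^ ε := by
            rw [← Real.rpow_add hF0]
            congr 2
            ring
    have h3 : 0 ≤ |K| * (1 + (4 ^ ε / c₀) ^ (1 / 2 : ℝ) + 4 ^ ε / c₀) := by positivity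
    calc |K| * (1 + (4 ^ ε / c₀) ^ (1 / 2 : ℝ) + 4 ^ ε / c₀) * N ^ ((1 + ε) / 2) * F ^ (ε / 2)
        = |K| * (1 + (4 ^ ε / c₀) ^ (1 / 2 : ℝ) + 4 ^ ε / c₀) *
          (N ^ ((1 + ε) / 2) * F ^ (ε / 2)) := by ring
      _ ≤ |K| * (1 + (4 ^ ε / c₀) ^ (1 / 2 : ℝ) + 4 ^ ε / c₀) * (N ^ (1 / 2 : ℝ) * F ^ ε) := by
          gcongr
      _ = |K| * (1 + (4 ^ ε / c₀) ^ (1 / 2 : ℝ) + 4 ^ ε / c₀) * N ^ (1 / 2 : ℝ) * F ^ ε := by ring

end Pool.Agent.Results.MP_493793_nt.SmallPerturbations
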